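import Mathlib

/-!
There is no universal countable projective algebra of plane sets.
-/

namespace Pool.Agent.Results.MP_3db952_lc.NoUniversal

/-- The Euclidean plane. -/
abbrev Pl := ℝ × ℝ

/-- The axes. -/
def axX : Set Pl := {p | p.2 = 0}
def axY : Set Pl := {p | p.1 = 0}

/-- The projections onto the axes. -/
def pi1 (S : Set Pl) : Set Pl := {p | p.2 = 0 ∧ ∃ y : ℝ, (p.1, y) ∈ S}
def pi2 (S : Set Pl) : Set Pl := {p | p.1 = 0 ∧ ∃ x : ℝ, (x, p.2) ∈ S}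

/-- The direct product `A ⊗ B`. -/
def dprod (A B : Set Pl) : Set Pl := {p | (p.1, (0:ℝ)) ∈ A ∧ ((0:ℝ), p.2) ∈ B}

/-- Projective algebras of plane sets. -/
structure IsProjAlg (𝒜 : Set (Set Pl)) : Prop where
  empty_mem : ∅ ∈ 𝒜
  union_mem : ∀ S ∈ 𝒜, ∀ T ∈ 𝒜, S ∪ T ∈ 𝒜
  inter_mem : ∀ S ∈ 𝒜, ∀ T ∈ 𝒜, S ∩ T ∈ 𝒜
  compl_mem : ∀ S ∈ 𝒜, Sᶜ ∈ 𝒜
  pi1_mem : ∀ S ∈ 𝒜, pi1 S ∈ 𝒜
  pi2_mem : ∀ S ∈ 𝒜, pi2 S ∈ 𝒜
  dprod_mem : ∀ A ∈ 𝒜, ∀ B ∈ 𝒜, A ⊆ axX → B ⊆ axY → dprod A B ∈ 𝒜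

/-- Isomorphism of projective algebras. -/
def Iso (𝒜 ℬ : Set (Set Pl)) : Prop :=
  ∃ f : Set Pl → Set Pl, Set.BijOn f 𝒜 ℬ ∧
    (∀ S ∈ 𝒜, ∀ T ∈ 𝒜, f (S ∪ T) = f S ∪ f T) ∧
    (∀ S ∈ 𝒜, ∀ T ∈ 𝒜, f (S ∩ T) = f S ∩ f T) ∧
    (∀ S ∈ 𝒜, f Sᶜ = (f S)ᶜ) ∧
    (∀ S ∈ 𝒜, f (pi1 S) = pi1 (f S)) ∧
    (∀ S ∈ 𝒜, f (pi2 S) = pi2 (f S)) ∧
    (∀ A ∈ 𝒜, ∀ B ∈ 𝒜, A ⊆ axX → B ⊆ axY → f (dprod A B) = dprod (f A) (f B))

theorem pi1_of_sub {A : Set Pl} (h : A ⊆ axX) : pi1 A = A := by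
  ext ⟨x, y⟩
  constructor
  · rintro ⟨h0, y', hy'⟩
    have := h hy'
    simp only [axX, Set.mem_setOf_eq] at this
    subst this
    simp only at h0
    subst h0
    exact hy'
  · intro hp
    have := h hp
    simp only [axX, Set.mem_setOf_eq] at this
    exact ⟨this, y, hp⟩

theorem pi2_of_sub {A : Set Pl} (h : A ⊆ axY) : pi2 A = A := by
  ext ⟨x, y⟩
  constructor
  · rintro ⟨h0, x', hx'⟩
    have := h hx'
    simp only [axY, Set.mem_setOf_eq] at this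
    subst this
    simp only at h0
    subst h0
    exact hx'
  · intro hp
    have := h hp
    simp only [axY, Set.mem_setOf_eq] at this
    exact ⟨this, x, hp⟩

theorem pi1_sub (S : Set Pl) : pi1 S ⊆ axX := fun _ h => h.1
theorem pi2_sub (S : Set Pl) : pi2 S ⊆ axY := fun _ h => h.1

theorem pi1_univ : pi1 Set.univ = axX := by
  ext ⟨x, y⟩
  simp [pi1, axX]

theorem pi2_univ : pi2 Set.univ = axY := by
  ext ⟨x, y⟩
  simp [pi2, axY]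

/-- terms -/
inductive Tm
  | g (i : Fin 4)
  | emp
  | un (s t : Tm)
  | int (s t : Tm)
  | cmp (s : Tm)
  | p1 (s : Tm)
  | p2 (s : Tm)
  | dp (s t : Tm)
  deriving Countable

def Tm.ev (v : Fin 4 → Set Pl) : Tm → Set Pl
  | .g i => v i
  | .emp => ∅
  | .un s t => s.ev v ∪ t.ev v
  | .int s t => s.ev v ∩ t.ev v
  | .cmp s => (s.ev v)ᶜ
  | .p1 s => pi1 (s.ev v)
  | .p2 s => pi2 (s.ev v)
  | .dp s t => dprod (pi1 (s.ev v)) (pi2 (t.ev v))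

/-- the generated algebra -/
def gen (v : Fin 4 → Set Pl) : Set (Set Pl) := Set.range (Tm.ev v)

theorem gen_countable (v : Fin 4 → Set Pl) : (gen v).Countable := Set.countable_range _

theorem gen_alg (v : Fin 4 → Set Pl) : IsProjAlg (gen v) where
  empty_mem := ⟨.emp, rfl⟩
  union_mem := by rintro _ ⟨s, rfl⟩ _ ⟨t, rfl⟩; exact ⟨.un s t, rfl⟩
  inter_mem := by rintro _ ⟨s, rfl⟩ _ ⟨t, rfl⟩; exact ⟨.int s t, rfl⟩
  compl_mem := by rintro _ ⟨s, rfl⟩; exact ⟨.cmp s, rfl⟩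
  pi1_mem := by rintro _ ⟨s, rfl⟩; exact ⟨.p1 s, rfl⟩
  pi2_mem := by rintro _ ⟨s, rfl⟩; exact ⟨.p2 s, rfl⟩
  dprod_mem := by
    rintro _ ⟨s, rfl⟩ _ ⟨t, rfl⟩ h1 h2
    refine ⟨.dp s t, ?_⟩
    show dprod (pi1 _) (pi2 _) = _
    rw [pi1_of_sub h1, pi2_of_sub h2]

/-- one step of the iteration -/
def step (D R A : Set Pl) : Set Pl := pi1 (R ∩ dprod axX (pi2 (D ∩ dprod A axY)))

def sq (D R A : Set Pl) : ℕ → Set Pl
  | 0 => A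
  | n + 1 => step D R (sq D R A n)

def gA : Set Pl := {(0, 0)}
def gE (E : Set ℕ) : Set Pl := {p | ∃ n ∈ E, p = ((n : ℝ), 0)}
def gD : Set Pl := {p | ∃ n : ℕ, p = ((n : ℝ), (n : ℝ))}
def gR : Set Pl := {p | ∃ n : ℕ, p = (((n + 1 : ℕ) : ℝ), (n : ℝ))}

theorem sq_val (n : ℕ) : sq gD gR gA n = {((n : ℝ), 0)} := by
  induction n with
  | zero => simp [sq, gA]
  | succ n ih =>
    rw [sq, ih]
    ext ⟨x, y⟩
    constructor
    · rintro ⟨h0, y', ⟨m, hm⟩, _, _, x', ⟨k, hk⟩, hx', _⟩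
      simp only [Prod.mk.injEq] at hm hk
      simp only [Set.mem_singleton_iff, Prod.mk.injEq] at hx'
      simp only at h0
      have h1 : (k : ℝ) = n := by rw [← hk.1]; exact hx'.1
      have h2 : (m : ℝ) = k := by rw [← hm.2]; exact hk.2
      simp only [Set.mem_singleton_iff, Prod.mk.injEq]
      refine ⟨?_, h0⟩
      rw [hm.1]
      push_cast
      rw [h2, h1]
    · intro h
      simp only [Set.mem_singleton_iff, Prod.mk.injEq] at h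
      obtain ⟨rfl, rfl⟩ := h
      refine ⟨rfl, (n : ℝ), ⟨n, rfl⟩, ?_, rfl, (n : ℝ), ⟨n, rfl⟩, ?_, ?_⟩
      · simp [axX]
      · simp
      · simp [axY]

theorem mem_E (E : Set ℕ) (n : ℕ) : n ∈ E ↔ gE E ∩ sq gD gR gA n ≠ ∅ := by
  rw [sq_val]
  constructor
  · intro h h0
    have : ((n : ℝ), (0 : ℝ)) ∈ gE E ∩ {((n : ℝ), (0 : ℝ))} := ⟨⟨n, h, rfl⟩, rfl⟩
    rw [h0] at this
    exact this
  · intro h
    obtain ⟨p, ⟨m, hm, hp⟩, hp2⟩ := Set.nonempty_iff_ne_empty.2 h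
    simp only [Set.mem_singleton_iff] at hp2
    rw [hp, Prod.mk.injEq] at hp2
    have : m = n := by exact_mod_cast hp2.1
    rw [← this]
    exact hm

theorem iso_transfer {𝒜 ℬ : Set (Set Pl)} (hA : IsProjAlg 𝒜) {f : Set Pl → Set Pl}
    (hf : Set.BijOn f 𝒜 ℬ)
    (hi : ∀ S ∈ 𝒜, ∀ T ∈ 𝒜, f (S ∩ T) = f S ∩ f T)
    (hc : ∀ S ∈ 𝒜, f Sᶜ = (f S)ᶜ)
    (h1 : ∀ S ∈ 𝒜, f (pi1 S) = pi1 (f S))
    (h2 : ∀ S ∈ 𝒜, f (pi2 S) = pi2 (f S))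
    (hd : ∀ A ∈ 𝒜, ∀ B ∈ 𝒜, A ⊆ axX → B ⊆ axY → f (dprod A B) = dprod (f A) (f B))
    {D R A S : Set Pl} (hD : D ∈ 𝒜) (hR : R ∈ 𝒜) (hAm : A ∈ 𝒜) (hAX : A ⊆ axX) (hS : S ∈ 𝒜)
    (n : ℕ) : (S ∩ sq D R A n = ∅ ↔ f S ∩ sq (f D) (f R) (f A) n = ∅) := by
  have hemp : f ∅ = ∅ := by
    have e : (∅ : Set Pl) ∩ ∅ᶜ = ∅ := by simp
    calc f ∅ = f (∅ ∩ ∅ᶜ) := by rw [e]
      _ = f ∅ ∩ (f ∅)ᶜ := by rw [hi _ hA.empty_mem _ (hA.compl_mem _ hA.empty_mem), hc _ hA.empty_mem]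
      _ = ∅ := by simp
  have huniv : (Set.univ : Set Pl) ∈ 𝒜 := by
    have := hA.compl_mem _ hA.empty_mem
    rwa [Set.compl_empty] at this
  have hfu : f Set.univ = Set.univ := by
    rw [← Set.compl_empty, hc _ hA.empty_mem, hemp]
  have hX : axX ∈ 𝒜 := by rw [← pi1_univ]; exact hA.pi1_mem _ huniv
  have hY : axY ∈ 𝒜 := by rw [← pi2_univ]; exact hA.pi2_mem _ huniv
  have hfX : f axX = axX := by rw [← pi1_univ, h1 _ huniv, hfu]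
  have hfY : f axY = axY := by rw [← pi2_univ, h2 _ huniv, hfu]
  have key : ∀ n, sq D R A n ∈ 𝒜 ∧ sq D R A n ⊆ axX ∧ f (sq D R A n) = sq (f D) (f R) (f A) n := by
    intro n
    induction n with
    | zero => exact ⟨hAm, hAX, rfl⟩
    | succ n ih =>
      obtain ⟨i1, i2, i3⟩ := ih
      have m1 : dprod (sq D R A n) axY ∈ 𝒜 := hA.dprod_mem _ i1 _ hY i2 (subset_refl _)
      have m2 : D ∩ dprod (sq D R A n) axY ∈ 𝒜 := hA.inter_mem _ hD _ m1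
      have m3 := hA.pi2_mem _ m2
      have m4 : dprod axX (pi2 (D ∩ dprod (sq D R A n) axY)) ∈ 𝒜 :=
        hA.dprod_mem _ hX _ m3 (subset_refl _) (pi2_sub _)
      have m5 := hA.inter_mem _ hR _ m4
      refine ⟨hA.pi1_mem _ m5, pi1_sub _, ?_⟩
      show f (pi1 _) = step _ _ _
      rw [h1 _ m5, hi _ hR _ m4, hd _ hX _ m3 (subset_refl _) (pi2_sub _), h2 _ m2, hi _ hD _ m1,
        hd _ i1 _ hY i2 (subset_refl _), hfX, hfY, i3]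
      rfl
  obtain ⟨k1, k2, k3⟩ := key n
  rw [← k3, ← hi _ hS _ k1]
  constructor
  · intro h; rw [h, hemp]
  · intro h
    exact hf.injOn (hA.inter_mem _ hS _ k1) hA.empty_mem (by rw [h, hemp])

def vv (E : Set ℕ) : Fin 4 → Set Pl
  | 0 => gA
  | 1 => gE E
  | 2 => gD
  | 3 => gR

/-- **Theorem.** There is no countable projective algebra (of plane sets) into which every
countable projective algebra embeds. -/
theorem result : ¬ ∃ 𝒰 : Set (Set Pl), IsProjAlg 𝒰 ∧ 𝒰.Countable ∧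
    ∀ 𝒜 : Set (Set Pl), IsProjAlg 𝒜 → 𝒜.Countable →
      ∃ 𝒮 : Set (Set Pl), 𝒮 ⊆ 𝒰 ∧ IsProjAlg 𝒮 ∧ Iso 𝒜 𝒮 := by
  rintro ⟨𝒰, _, hcU, huni⟩
  have main : ∀ E : Set ℕ, ∃ w : Fin 4 → 𝒰, ∀ n : ℕ,
      n ∈ E ↔ (w 1 : Set Pl) ∩ sq (w 2) (w 3) (w 0) n ≠ ∅ := by
    intro E
    obtain ⟨𝒮, hS, _, f, hf, _, hi, hc, h1, h2, hd⟩ := huni (gen (vv E)) (gen_alg _)
      (gen_countable _)
    have hm : ∀ i, vv E i ∈ gen (vv E) := fun i => ⟨.g i, rfl⟩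
    refine ⟨fun i => ⟨f (vv E i), hS (hf.mapsTo (hm i))⟩, fun n => ?_⟩
    have hgA : (vv E 0) ⊆ axX := by
      rintro p hp
      have : p = (0, 0) := hp
      rw [this]; exact rfl
    have := iso_transfer (gen_alg _) hf hi hc h1 h2 hd (hm 2) (hm 3) (hm 0) hgA (hm 1) n
    rw [mem_E E n, ne_eq, ne_eq]
    exact not_congr this
  choose w hw using main
  have hinj : Function.Injective w := by
    intro E F h
    ext n
    rw [hw E n, hw F n, h]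
  have : Countable 𝒰 := hcU.to_subtype
  have hc4 : Countable (Fin 4 → 𝒰) := inferInstance
  have hcS : Countable (Set ℕ) := hinj.countable
  obtain ⟨g, hg⟩ := exists_injective_nat (Set ℕ)
  exact Function.cantor_injective g hg

end Pool.Agent.Results.MP_3db952_lc.NoUniversal
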